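import Pool.Agent.H22.Sym8

set_option autoImplicit false

namespace Pool.Agent.Results.MP_182b9e_gt.Full

open Pool.Agent.H22.Sym

theorem result (n : ℕ) (H : Submodule ℝ (En n)) (hH : Module.finrank ℝ H + 2 ≤ n) (b : Bool) :
    (∃ S : Set (En n) → Set (En n),
      (∀ K, InB b K → InB b (S K) ∧ HSym H (S K)) ∧
      (∀ K L, InB b K → InB b L → K ⊆ L → S K ⊆ S L) ∧
      (∀ K, InB b K → meanWidth (S K) = meanWidth K) ∧
      (∀ K, InB b K → HSym H K → S K = K) ∧
      ¬ (∀ K, InB b K → HSym H K → ∀ y ∈ Hᗮ, S ((fun p => p + y) '' K) = S K)) ↔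
    Module.finrank ℝ H = 0 := by
  have hn : 2 ≤ n := by omega
  have : Nontrivial (En n) := by
    apply Module.nontrivial_of_finrank_pos (R := ℝ)
    rw [finrank_euclideanSpace_fin]; omega
  constructor
  · rintro ⟨S, h1, h2, h3, h4, h5⟩
    by_contra h0
    have hb : H ≠ ⊥ := fun h => h0 (by rw [h]; simp)
    apply h5
    intro K hK hs y hy
    rw [h4 K hK hs]
    refine rigid h1 h2 (fun K hK => ?_) h4 hb hK hs hy
    have hS := (h1 K hK).1
    refine (sphere_eq_iff hS.1.1 hS.1.2.2 hK.1.1 hK.1.2.2).1 ?_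
    have hpos : (0 : ℝ) < (sph n).real Set.univ := by
      unfold sph
      rw [MeasureTheory.measureReal_def, ENNReal.toReal_pos_iff]
      exact ⟨pos_iff_ne_zero.2 (by
        rw [Ne, MeasureTheory.Measure.measure_univ_eq_zero]
        exact MeasureTheory.Measure.toSphere_ne_zero _), MeasureTheory.measure_lt_top _ _⟩
    exact mul_left_cancel₀ (div_pos two_pos hpos).ne' (h3 K hK)
  · intro h0
    obtain rfl : H = ⊥ := Submodule.finrank_eq_zero.1 h0
    have hsym : ∀ K : Set (En n), HSym ⊥ K ↔ -K = K := fun K => by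
      unfold HSym
      rw [← Set.image_neg_eq_neg]
      simp
    refine ⟨D, fun K hK => ⟨⟨D_cc hK.1, fun hb => D_interior hK.1.1 (hK.2 hb)⟩,
      (hsym _).2 (D_neg_eq K)⟩, fun K L hK hL h => D_mono hK.1.1 hK.1.2.2 hL.1.1 h,
      fun K hK => D_mw hK.1, fun K hK hs => D_fix hK.1 ((hsym _).1 hs), fun h => ?_⟩
    have hB : InB b (Metric.closedBall (0 : En n) 1) :=
      ⟨⟨isCompact_closedBall 0 1, convex_closedBall 0 1,
        Metric.nonempty_closedBall.2 zero_le_one⟩, fun _ => ⟨0, by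
          rw [mem_interior_iff_mem_nhds]; exact Metric.closedBall_mem_nhds 0 one_pos⟩⟩
    have hs : -Metric.closedBall (0 : En n) 1 = Metric.closedBall 0 1 := by simp
    have := h _ hB ((hsym _).2 hs) ((2 : ℝ) • EuclideanSpace.single ⟨0, by omega⟩ 1) (by simp)
    rw [D_fix hB.1 hs] at this
    exact fails (u := EuclideanSpace.single ⟨1, by omega⟩ 1) (by simp) (by simp)
      (by simp [EuclideanSpace.inner_single_left, Fin.ext_iff]) this

end Pool.Agent.Results.MP_182b9e_gt.Full
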